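import Pool.Agent.H29.AB.Iface
import Pool.Agent.H52.FD.Place

/-!
# Project AB, module LocR: relative local degrees

`card_ker_rel`: the number of the members of a relative family with kernel `P` is `e(P/u) f(P/u)`.

Proof. Take an absolute family `w_j` of `F` and relative families over each `w_j`: together they are an
absolute family of `K` (`redFam_of_rel`). The number of the members with kernel `P` of a relative family over
`w` depends only on `w`, and not on the choice of `w` with the given kernel (Frobenius, `card_rel_eq`).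
So `e(P/p) f(P/p) = e(u/p) f(u/p) n`.
-/

namespace H52AB

open Polynomial NumberField H9FC H9AB H29AB H52FD

/-! ### the norm form of `K` over `ℚ` in terms of the norm form over `F` -/

private theorem LocR_norm (F : Type*) [Field F] [NumberField F] (E : Type*) [Field E] [Algebra ℚ E]
    (hE : Fintype.card (F →ₐ[ℚ] E) = Module.finrank ℚ F) (x : F) :
    algebraMap ℚ E (Algebra.norm ℚ x) = ∏ σ : F →ₐ[ℚ] E, σ x := by
  let A := AlgebraicClosure E
  have hinj : Function.Injective (algebraMap E A) := (algebraMap E A).injective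
  apply hinj
  rw [map_prod]
  have h1 : algebraMap E A (algebraMap ℚ E (Algebra.norm ℚ x)) =
      algebraMap ℚ A (Algebra.norm ℚ x) := (IsScalarTower.algebraMap_apply ℚ E A _).symm
  rw [h1, Algebra.norm_eq_prod_embeddings ℚ A x]
  let f : (F →ₐ[ℚ] E) → (F →ₐ[ℚ] A) := fun σ => (IsScalarTower.toAlgHom ℚ E A).comp σ
  have hf : Function.Injective f := by
    intro σ τ h
    ext y
    apply hinj
    exact DFunLike.congr_fun h y
  have hf2 : Function.Bijective f := by
    rw [Fintype.bijective_iff_injective_and_card]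
    refine ⟨hf, ?_⟩
    rw [hE, AlgHom.card ℚ F A]
  exact (Fintype.prod_bijective f hf2 _ _ fun σ => rfl).symm

/-- transitivity of the norm forms -/
theorem nf_tower (F K : Type*) [Field F] [NumberField F] [Field K] [NumberField K] [Algebra F K]
    (N : Type*) [Field N] [NumberField N]
    (hN : Fintype.card (F →ₐ[ℚ] N) = Module.finrank ℚ F) (a b : 𝓞 K) :
    (nf K a b).map (Int.castRingHom (𝓞 N)) = ∏ σ : F →ₐ[ℚ] N,
      (nfR F K a b).map (RingOfIntegers.mapRingHom (σ : F →+* N)) := by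
  apply map_injective (algebraMap (𝓞 N) N) RingOfIntegers.coe_injective
  rw [map_map, Polynomial.map_prod]
  have h2 : (algebraMap (𝓞 N) N).comp (Int.castRingHom (𝓞 N)) = Int.castRingHom N := RingHom.ext_int _ _
  rw [h2]
  have h3 : ∀ σ : F →ₐ[ℚ] N, ((nfR F K a b).map (RingOfIntegers.mapRingHom (σ : F →+* N))).map
      (algebraMap (𝓞 N) N) = (nfL F K (a : K) (b : K)).map (σ : F →+* N) := by
    intro σ
    rw [← nfR_map, map_map, map_map]
    congr 1
  rw [Finset.prod_congr rfl fun σ _ => h3 σ]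
  apply eq_of_infinite_eval_eq
  refine Set.Infinite.mono ?_ (Set.infinite_range_of_injective (Int.cast_injective (α := N)))
  rintro _ ⟨t, rfl⟩
  show eval (t : N) ((nf K a b).map (Int.castRingHom N)) = eval (t : N) _
  have h4 : (t : N) = Int.castRingHom N t := rfl
  have h5 : eval (t : N) ((nf K a b).map (Int.castRingHom N)) =
      algebraMap ℚ N (Algebra.norm ℚ ((a : K) + (t : K) * (b : K))) := by
    rw [h4, eval_map_apply, nf_eval]
    have h6 : (Algebra.norm ℚ ((a : K) + (t : K) * (b : K))) =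
        ((Algebra.norm ℤ (a + (t : 𝓞 K) * b) : ℤ) : ℚ) := by
      rw [Algebra.coe_norm_int]
      push_cast
      rfl
    rw [h6]
    simp
  rw [h5, eval_prod, ← Algebra.norm_norm (S := F), LocR_norm F N hN]
  refine Finset.prod_congr rfl fun σ _ => ?_
  have h7 : (t : N) = (σ : F →+* N) (t : F) := by simp
  rw [h7, eval_map_apply, nfL_eval]
  show σ _ = σ _
  congr 2
  rw [Algebra.smul_def, map_intCast]

/-- relative families over the members of an absolute family of `F` are an absolute family of `K` -/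
theorem exists_big_fam (F K : Type*) [Field F] [NumberField F] [Field K] [NumberField K] [Algebra F K]
    (p : ℕ) [Fact p.Prime] (Ω : Type*) [Field Ω] [IsAlgClosed Ω] [CharP Ω p] :
    ∃ (w : Fin (Module.finrank ℚ F) → (𝓞 F →+* Ω))
      (ψ : Fin (Module.finrank ℚ F) → Fin (Module.finrank F K) → (𝓞 K →+* Ω))
      (e : Fin (Module.finrank ℚ K) ≃ Fin (Module.finrank ℚ F) × Fin (Module.finrank F K)),
      IsRedFam w ∧ (∀ j, IsRelFam (w j) (ψ j)) ∧ IsRedFam (fun k => ψ (e k).1 (e k).2) := by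
  let N := IntermediateField.normalClosure ℚ F ℂ
  have hNf : NumberField N := { to_charZero := inferInstance, to_finiteDimensional := inferInstance }
  have hcard : Fintype.card (F →ₐ[ℚ] N) = Module.finrank ℚ F :=
    (Fintype.card_congr (normalClosure.algHomEquiv ℚ F ℂ)).trans (AlgHom.card ℚ F ℂ)
  obtain ⟨ψ0, -⟩ := exists_redFam N p Ω
  have hd : 0 < Module.finrank ℚ N := Module.finrank_pos
  let χ : 𝓞 N →+* Ω := ψ0 ⟨0, hd⟩
  let e0 : Fin (Module.finrank ℚ F) ≃ (F →ₐ[ℚ] N) := (Fintype.equivFinOfCardEq hcard).symm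
  let w : Fin (Module.finrank ℚ F) → (𝓞 F →+* Ω) :=
    fun j => χ.comp (RingOfIntegers.mapRingHom (e0 j : F →+* N))
  choose ψ hψ1 hψ2 using fun j => exists_relFam F K Ω (w j)
  have hT : IsScalarTower ℚ F K := IsScalarTower.of_algebraMap_eq' (Subsingleton.elim _ _)
  have hdeg : Module.finrank ℚ F * Module.finrank F K = Module.finrank ℚ K :=
    Module.finrank_mul_finrank ℚ F K
  let e : Fin (Module.finrank ℚ K) ≃ Fin (Module.finrank ℚ F) × Fin (Module.finrank F K) :=
    (finCongr hdeg.symm).trans finProdFinEquiv.symm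
  have h3 : (Int.castRingHom Ω) = χ.comp (Int.castRingHom (𝓞 N)) := (RingHom.ext_int _ _)
  refine ⟨w, ψ, e, fun a b => ?_, fun j => ⟨hψ1 j, hψ2 j⟩, fun a b => ?_⟩
  · have h1 : (nf F a b).map (Int.castRingHom (𝓞 N)) = ∏ σ : F →ₐ[ℚ] N,
        (C (RingOfIntegers.mapRingHom (σ : F →+* N) a) +
          X * C (RingOfIntegers.mapRingHom (σ : F →+* N) b)) := by
      apply map_injective (algebraMap (𝓞 N) N) RingOfIntegers.coe_injective
      rw [map_map]
      have h2 : (algebraMap (𝓞 N) N).comp (Int.castRingHom (𝓞 N)) = Int.castRingHom N :=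
        RingHom.ext_int _ _
      rw [h2, nf_map_prod F N hcard, Polynomial.map_prod]
      refine Finset.prod_congr rfl fun σ _ => ?_
      rw [Polynomial.map_add, Polynomial.map_mul, map_C, map_C, map_X]
      rfl
    rw [h3, ← map_map, h1, Polynomial.map_prod, ← Equiv.prod_comp e0]
    refine Finset.prod_congr rfl fun i _ => ?_
    rw [Polynomial.map_add, Polynomial.map_mul, map_C, map_C, map_X]
    rfl
  · rw [h3, ← map_map, nf_tower F K N hcard, Polynomial.map_prod, ← Equiv.prod_comp e0]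
    have h4 : ∀ j, ((nfR F K a b).map (RingOfIntegers.mapRingHom ((e0 j : F →ₐ[ℚ] N) : F →+* N))).map χ =
        ∏ i, (C (ψ j i a) + X * C (ψ j i b)) := by
      intro j
      rw [map_map]
      exact hψ2 j a b
    rw [Finset.prod_congr rfl fun j _ => h4 j, ← Fintype.prod_prod_type']
    exact (Equiv.prod_comp e (fun x => C (ψ x.1 x.2 a) + X * C (ψ x.1 x.2 b))).symm

/-! ### the number of the members with a given kernel -/

section

variable {F K : Type*} [Field F] [NumberField F] [Field K] [NumberField K] [Algebra F K]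
  {p : ℕ} [Fact p.Prime] {Ω : Type*} [Field Ω] [CharP Ω p]

private theorem LocR_count (w : 𝓞 F →+* Ω) (ψ : Fin (Module.finrank F K) → (𝓞 K →+* Ω))
    (hψ : IsRelFam w ψ) (y : 𝓞 K) :
    Nat.card {i // ψ i y = 0} = ((nfR F K y 1).map w).rootMultiplicity 0 := by
  classical
  have h1 : (nfR F K y 1).map w = ∏ i, (X - C (-ψ i y)) := by
    rw [hψ.2 y 1]
    refine Finset.prod_congr rfl fun i _ => ?_
    rw [map_one, C_neg, C_1, mul_one]
    ring
  rw [h1, ← count_roots]
  have h3 : (∏ i, (X - C (-ψ i y))).roots = (Finset.univ.val.map (fun i => -ψ i y)) := by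
    rw [← roots_multiset_prod_X_sub_C (Finset.univ.val.map (fun i => -ψ i y)), Multiset.map_map]
    rfl
  rw [h3, Multiset.count_map, Nat.card_eq_fintype_card, Fintype.card_subtype]
  rw [Finset.card_def, Finset.filter_val]
  congr 1
  refine Multiset.filter_congr fun i _ => ?_
  constructor
  · intro h
    rw [h, neg_zero]
  · intro h
    exact neg_eq_zero.1 h.symm

/-- an element which lies in `P` and in no other prime above `p` -/
theorem exists_sep (P : Ideal (𝓞 K)) (hP : P.IsPrime) (hpP : (p : 𝓞 K) ∈ P) :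
    ∃ y ∈ P, ∀ ψ : 𝓞 K →+* Ω, ψ y = 0 ↔ RingHom.ker ψ = P := by
  classical
  obtain ⟨hne, hmax, -, -, hlies, -⟩ := prime_data (p := p) P hP hpP
  have hpmax : (Ideal.span {(p : ℤ)}).IsMaximal := Int.ideal_span_isMaximal_of_prime p
  set T : Finset (Ideal (𝓞 K)) := ((Ideal.span {(p : ℤ)}).primesOver (𝓞 K)).toFinset with hT
  have hTmem : ∀ Q, Q ∈ T ↔ Q ∈ (Ideal.span {(p : ℤ)}).primesOver (𝓞 K) := fun Q => Set.mem_toFinset
  have hTmax : ∀ Q ∈ T, Q.IsMaximal := by
    intro Q hQ
    have h1 := (hTmem Q).1 hQ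
    have h2 : Q.IsPrime := h1.1
    have h3 : Q.LiesOver (Ideal.span {(p : ℤ)}) := h1.2
    exact Ideal.IsMaximal.of_liesOver_isMaximal Q (Ideal.span {(p : ℤ)})
  obtain ⟨y, hyP, hy⟩ : ∃ y ∈ P, ∀ Q ∈ T, Q ≠ P → y ∉ Q := by
    by_contra hcon
    push Not at hcon
    have hsub : (P : Set (𝓞 K)) ⊆ ⋃ Q ∈ ((T.erase P : Finset (Ideal (𝓞 K))) : Set (Ideal (𝓞 K))),
        ((Q : Ideal (𝓞 K)) : Set (𝓞 K)) := by
      intro y hy
      obtain ⟨Q, hQ, hQP, hyQ⟩ := hcon y hy
      rw [Set.mem_iUnion₂]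
      exact ⟨Q, by
        rw [Finset.mem_coe, Finset.mem_erase]
        exact ⟨hQP, hQ⟩, hyQ⟩
    rcases (T.erase P).eq_empty_or_nonempty with he | ⟨Q0, hQ0⟩
    · rw [he] at hsub
      simp at hsub
      exact absurd P.zero_mem (by
        rw [← SetLike.mem_coe, hsub]
        exact Set.notMem_empty _)
    · rw [Ideal.subset_union_prime Q0 Q0 (fun i hi _ _ => (hTmax i (Finset.mem_of_mem_erase hi)).isPrime)] at hsub
      obtain ⟨Q, hQ, hPQ⟩ := hsub
      have h1 := hmax.eq_of_le (hTmax Q (Finset.mem_of_mem_erase hQ)).ne_top hPQ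
      exact (Finset.ne_of_mem_erase hQ) h1.symm
  refine ⟨y, hyP, fun ψ => ⟨fun h => ?_, fun h => ?_⟩⟩
  · by_contra hne
    refine hy (RingHom.ker ψ) ?_ hne h
    rw [hTmem]
    exact ⟨RingHom.ker_isPrime _,
      (prime_data (p := p) _ (RingHom.ker_isPrime _) (p_mem_ker _)).2.2.2.2.1⟩
  · rw [← RingHom.mem_ker, h]
    exact hyP

/-- the number of the members with kernel `P` is the same for all relative families over homomorphisms
with the same kernel -/
theorem card_rel_eq (w w' : 𝓞 F →+* Ω) (hw : RingHom.ker w = RingHom.ker w')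
    (ψ ψ' : Fin (Module.finrank F K) → (𝓞 K →+* Ω)) (hψ : IsRelFam w ψ) (hψ' : IsRelFam w' ψ')
    (P : Ideal (𝓞 K)) (hP : P.IsPrime) (hpP : (p : 𝓞 K) ∈ P) :
    Nat.card {i // RingHom.ker (ψ i) = P} = Nat.card {i // RingHom.ker (ψ' i) = P} := by
  obtain ⟨y, hyP, hy⟩ := exists_sep (Ω := Ω) P hP hpP
  have e1 : Nat.card {i // RingHom.ker (ψ i) = P} = Nat.card {i // ψ i y = 0} :=
    Nat.card_congr (Equiv.subtypeEquivRight fun i => (hy (ψ i)).symm)
  have e2 : Nat.card {i // RingHom.ker (ψ' i) = P} = Nat.card {i // ψ' i y = 0} :=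
    Nat.card_congr (Equiv.subtypeEquivRight fun i => (hy (ψ' i)).symm)
  rw [e1, e2, LocR_count w ψ hψ, LocR_count w' ψ' hψ']
  obtain ⟨n, hn⟩ := frob_conj (p := p) w w' hw
  have h1 : w' = (iterateFrobenius Ω p n).comp w := by
    ext x
    rw [hn, RingHom.comp_apply, iterateFrobenius_def]
  rw [h1, ← map_map]
  have h2 := eq_rootMultiplicity_map (p := (nfR F K y 1).map w) (iterateFrobenius_inj Ω p n) 0
  rw [map_zero] at h2
  exact h2

end

/-- **M2**: relative local degrees -/
theorem card_ker_rel {F K : Type*} [Field F] [NumberField F] [Field K] [NumberField K] [Algebra F K]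
    {p : ℕ} [Fact p.Prime] {Ω : Type*} [Field Ω] [IsAlgClosed Ω] [CharP Ω p] (w : 𝓞 F →+* Ω)
    (ψ : Fin (Module.finrank F K) → (𝓞 K →+* Ω)) (hψ : IsRelFam w ψ) (P : Ideal (𝓞 K))
    (hP : P.IsPrime) (hPu : P.LiesOver (RingHom.ker w)) :
    Nat.card {i // RingHom.ker (ψ i) = P} = P.ramificationIdx (𝓞 F) * P.inertiaDeg (𝓞 F) := by
  classical
  set u : Ideal (𝓞 F) := RingHom.ker w with hu
  have hup : u.IsPrime := RingHom.ker_isPrime w
  have hpu : (p : 𝓞 F) ∈ u := p_mem_ker w
  have hpP : (p : 𝓞 K) ∈ P := by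
    have h1 : (p : 𝓞 F) ∈ P.under (𝓞 F) := by
      rw [← hPu.over]
      exact hpu
    have h2 : algebraMap (𝓞 F) (𝓞 K) (p : 𝓞 F) ∈ P := h1
    rwa [map_natCast] at h2
  obtain ⟨W, Ψ, e, hW, hΨ, hbig⟩ := exists_big_fam F K p Ω
  have c1 := card_ker hbig P hP hpP
  have c2 := card_ker hW u hup hpu
  -- partition
  have hker : ∀ j i, RingHom.ker (Ψ j i) = P → RingHom.ker (W j) = u := by
    intro j i h
    rw [← (hΨ j).1 i, ← RingHom.comap_ker, h]
    exact hPu.over.symm
  have c3 : Nat.card {k // RingHom.ker (Ψ (e k).1 (e k).2) = P} =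
      Nat.card {j // RingHom.ker (W j) = u} * Nat.card {i // RingHom.ker (ψ i) = P} := by
    have h1 : Nat.card {k // RingHom.ker (Ψ (e k).1 (e k).2) = P} =
        Nat.card {x : Fin (Module.finrank ℚ F) × Fin (Module.finrank F K) //
          RingHom.ker (Ψ x.1 x.2) = P} :=
      Nat.card_congr (e.subtypeEquiv fun k => Iff.rfl)
    rw [h1, Nat.card_eq_fintype_card, Fintype.card_subtype, Finset.card_filter,
      Fintype.sum_prod_type]
    have h2 : ∀ j, ∑ i, (if RingHom.ker (Ψ j i) = P then 1 else 0) =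
        (if RingHom.ker (W j) = u then Nat.card {i // RingHom.ker (ψ i) = P} else 0) := by
      intro j
      split_ifs with h
      · rw [← card_rel_eq (W j) w h (Ψ j) ψ (hΨ j) hψ P hP hpP, Nat.card_eq_fintype_card,
          Fintype.card_subtype, Finset.card_filter]
      · refine Finset.sum_eq_zero fun i _ => ?_
        rw [if_neg fun h3 => h (hker j i h3)]
    rw [Finset.sum_congr rfl fun j _ => h2 j, ← Finset.sum_filter, Finset.sum_const, smul_eq_mul,
      Nat.card_eq_fintype_card (α := {j // RingHom.ker (W j) = u}), Fintype.card_subtype]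
  have t1 : P.ramificationIdx ℤ = u.ramificationIdx ℤ * P.ramificationIdx (𝓞 F) :=
    Ideal.ramificationIdx_tower u P
  have t2 : P.inertiaDeg ℤ = u.inertiaDeg ℤ * P.inertiaDeg (𝓞 F) :=
    Ideal.inertiaDeg_tower u P
  have p1 : 0 < u.ramificationIdx ℤ := Ideal.ramificationIdx_pos u ℤ
  have p2 : 0 < u.inertiaDeg ℤ := Ideal.inertiaDeg_pos u ℤ
  have h : (u.ramificationIdx ℤ * u.inertiaDeg ℤ) * Nat.card {i // RingHom.ker (ψ i) = P} =
      (u.ramificationIdx ℤ * u.inertiaDeg ℤ) * (P.ramificationIdx (𝓞 F) * P.inertiaDeg (𝓞 F)) := by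
    rw [← c2, ← c3, c1, c2, t1, t2]
    ring
  exact Nat.eq_of_mul_eq_mul_left (Nat.mul_pos p1 p2) h

end H52AB
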