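import Pool.Agent.H24.AB.ExFam
import Pool.Agent.H52.AB.LocR

/-!
# Project AB, module Big: a good place of large local degree over `F`

`sym_big`: if the relative local degree of a good place `v` above `u` is larger than half of the sum of the
relative local degrees of the good places above `u`, then `|𝓞 F / u| = 2` modulo `3`, the relative residue
degree of `v` is even and `v` divides `a² + ab + b²`.
-/

namespace H52AB

open Polynomial NumberField H9FC H9AB IsDedekindDomain H29AB H52FD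

section fam

variable {Ω : Type*} [Field Ω] {p : ℕ} [Fact p.Prime] [CharP Ω p]

/-- the Frobenius powers of a zero of `X² - X + 1`, `p = 2` modulo `3` -/
theorem root_frob_pow (hp : 5 ≤ p) {s : Ω} (hs : s ^ 2 - s + 1 = 0) (h3 : p % 3 = 2) (k : ℕ) :
    (Even k → s ^ p ^ k = s) ∧ (¬ Even k → s ^ p ^ k = s⁻¹) := by
  have hfr := (root_frob hp hs).2 h3
  induction k with
  | zero => simp
  | succ k ih =>
    rw [Nat.even_add_one]
    constructor
    · intro h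
      rw [pow_succ, pow_mul, ih.2 h, inv_pow, hfr, inv_inv]
    · intro h
      rw [not_not] at h
      rw [pow_succ, pow_mul, ih.1 h, hfr]

/-- version of `fam_core` for the Frobenius of order `p ^ r` -/
theorem fam_core_q (hp : 5 ≤ p) {ι : Type*} [Fintype ι] {T : ι → Ω} (hT : S3 T) (A : Finset ι)
    (hA : Fintype.card ι < 2 * A.card) (r : ℕ)
    (hfr : ∀ i ∈ A, ∀ j ∈ A, ∃ k : ℕ, T j = T i ^ p ^ (r * k)) {i : ι} (hi : i ∈ A) :
    T i ^ 2 - T i + 1 = 0 ∧ p % 3 = 2 ∧ ¬ Even r ∧ ∀ f, T i ^ p ^ (r * f) = T i → Even f := by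
  classical
  have hfr' : ∀ i ∈ A, ∀ j ∈ A, ∃ k : ℕ, T j = T i ^ p ^ k := by
    intro i hi j hj
    obtain ⟨k, hk⟩ := hfr i hi j hj
    exact ⟨r * k, hk⟩
  obtain ⟨h1, h2, h3⟩ := fam_core hp hT A hA hfr' hi
  have hr : ¬ Even r := by
    obtain ⟨σ, hσ⟩ := hT.1
    obtain ⟨j, hj, hj'⟩ := exists_pair σ A hA
    obtain ⟨k, hk⟩ := hfr j hj (σ j) hj'
    obtain ⟨g1, -, -⟩ := fam_core hp hT A hA hfr' hj
    intro he
    have h4 := (root_frob_pow hp g1 h2 (r * k)).1 (he.mul_right k)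
    rw [h4] at hk
    have h5 : T (σ j) = (T j)⁻¹ := eq_inv_of_mul_eq_one_left (hσ j)
    rw [h5] at hk
    exact root_ne_inv hp g1 hk
  refine ⟨h1, h2, hr, fun f hf => ?_⟩
  have h4 := h3 _ hf
  rcases Nat.even_mul.1 h4 with h5 | h5
  · exact absurd h5 hr
  · exact h5

end fam

section hom

variable {F : Type*} [Field F] [NumberField F] {p : ℕ} [Fact p.Prime] {Ω : Type*} [Field Ω]
  [CharP Ω p]

/-- if the `n`-th power of Frobenius is trivial on the image, the residue degree divides `n` -/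
theorem dvd_of_frob (w : 𝓞 F →+* Ω) (n : ℕ) (h : ∀ x, w x ^ p ^ n = w x) :
    (RingHom.ker w).inertiaDeg ℤ ∣ n := by
  have hpp : p.Prime := Fact.out
  obtain ⟨hne, hmax, hfin, hchar, -, hcard⟩ :=
    prime_data (p := p) (RingHom.ker w) (RingHom.ker_isPrime w) (p_mem_ker w)
  let _ : Field (𝓞 F ⧸ RingHom.ker w) := Ideal.Quotient.field _
  let _ : Algebra (ZMod p) (𝓞 F ⧸ RingHom.ker w) := ZMod.algebra _ p
  have : Module.Finite (ZMod p) (𝓞 F ⧸ RingHom.ker w) := Module.Finite.of_finite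
  have h1 : Module.finrank (ZMod p) (𝓞 F ⧸ RingHom.ker w) = (RingHom.ker w).inertiaDeg ℤ := by
    have h2 := Module.natCard_eq_pow_finrank (K := ZMod p) (V := 𝓞 F ⧸ RingHom.ker w)
    rw [Nat.card_zmod, ← hcard] at h2
    exact (Nat.pow_right_injective hpp.two_le h2).symm
  rw [← h1, ← FiniteField.orderOf_frobeniusAlgHom (ZMod p) (𝓞 F ⧸ RingHom.ker w)]
  apply orderOf_dvd_of_pow_eq_one
  apply AlgHom.ext
  intro x
  obtain ⟨x, rfl⟩ := Ideal.Quotient.mk_surjective x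
  have h2 : ∀ (m : ℕ) (z : 𝓞 F ⧸ RingHom.ker w),
      (FiniteField.frobeniusAlgHom (ZMod p) (𝓞 F ⧸ RingHom.ker w) ^ m) z = z ^ p ^ m := by
    intro m z
    induction m with
    | zero => simp
    | succ m ih =>
      rw [pow_succ', AlgHom.mul_apply, ih, FiniteField.coe_frobeniusAlgHom, ZMod.card]
      show (z ^ p ^ m) ^ p = z ^ p ^ (m + 1)
      rw [← pow_mul, pow_succ]
  rw [h2, ← map_pow]
  show Ideal.Quotient.mk _ (x ^ p ^ n) = Ideal.Quotient.mk _ x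
  rw [Ideal.Quotient.eq, RingHom.mem_ker, map_sub, map_pow, h, sub_self]

end hom

/-- **M5** -/
theorem sym_big {F K : Type*} [Field F] [NumberField F] [Field K] [NumberField K] [Algebra F K]
    {p : ℕ} [Fact p.Prime] (hS : SymF F K p) (hp : 2 * Module.finrank ℚ K + 3 ≤ p)
    (a b c : K) (ha : a ≠ 0) (hb : b ≠ 0) (hc : c ≠ 0) (h : a ^ p + b ^ p + c ^ p = 0)
    (u : HeightOneSpectrum (𝓞 F)) (hu : (p : 𝓞 F) ∈ u.asIdeal)
    (v : HeightOneSpectrum (𝓞 K)) (hv : v.asIdeal.LiesOver u.asIdeal) (he : EqAt v a b c)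
    (hbig : good u a b c < 2 * (v.asIdeal.ramificationIdx (𝓞 F) * v.asIdeal.inertiaDeg (𝓞 F))) :
    Nat.card (𝓞 F ⧸ u.asIdeal) % 3 = 2 ∧ Even (v.asIdeal.inertiaDeg (𝓞 F)) ∧ CubAt v a b c := by
  classical
  have hpp : p.Prime := Fact.out
  have h5 : 5 ≤ p := by
    have : 0 < Module.finrank ℚ K := Module.finrank_pos
    omega
  have hpodd : Odd p := hpp.odd_of_ne_two (by omega)
  obtain ⟨l, a', b', c', w, ψ, hl, ea, eb, ec, hF, hcp, hw, hψ, hE, -, hg⟩ :=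
    H24AB.exists_fam (AlgebraicClosure (ZMod p)) a b c ha hb hc h u hu
  obtain ⟨hE1, hcard⟩ := hE v hv
  obtain ⟨n1, n2, n3⟩ := hE1.1 he
  set T : {i // ψ i a' ≠ 0 ∧ ψ i b' ≠ 0 ∧ ψ i c' ≠ 0} → AlgebraicClosure (ZMod p) :=
    fun i => -(ψ i.1 b') / ψ i.1 a' with hT
  have hSt : H85FD.S3St T := hS a' b' c' hF hcp (AlgebraicClosure (ZMod p)) w ψ hψ
  have hS3 : S3 T := by
    obtain ⟨σ, hσ⟩ := hSt.inv
    obtain ⟨τ, hτ⟩ := hSt.sub'
    exact ⟨⟨σ, hσ⟩, τ, hτ⟩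
  have hgd : ∀ i, RingHom.ker (ψ i) = v.asIdeal → ψ i a' ≠ 0 ∧ ψ i b' ≠ 0 ∧ ψ i c' ≠ 0 := by
    intro i hi
    refine ⟨fun h0 => n1 ?_, fun h0 => n2 ?_, fun h0 => n3 ?_⟩ <;>
    · rw [← hi]
      exact h0
  set A : Finset {i // ψ i a' ≠ 0 ∧ ψ i b' ≠ 0 ∧ ψ i c' ≠ 0} :=
    Finset.univ.filter (fun i => RingHom.ker (ψ i.1) = v.asIdeal) with hA
  have hAcard : A.card = v.asIdeal.ramificationIdx (𝓞 F) * v.asIdeal.inertiaDeg (𝓞 F) := by
    rw [← hcard, Nat.card_eq_fintype_card, Fintype.card_subtype]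
    refine Finset.card_bij (fun i _ => i.1) ?_ ?_ ?_
    · intro i hi
      rw [hA, Finset.mem_filter] at hi
      rw [Finset.mem_filter]
      exact ⟨Finset.mem_univ _, hi.2⟩
    · intro i _ j _ hij
      exact Subtype.ext hij
    · intro i hi
      rw [Finset.mem_filter] at hi
      refine ⟨⟨i, hgd i hi.2⟩, ?_, rfl⟩
      rw [hA, Finset.mem_filter]
      exact ⟨Finset.mem_univ _, hi.2⟩
  have hlt : Fintype.card {i // ψ i a' ≠ 0 ∧ ψ i b' ≠ 0 ∧ ψ i c' ≠ 0} < 2 * A.card := by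
    rw [hAcard, ← Nat.card_eq_fintype_card, hg]
    exact hbig
  -- the Frobenius of `𝓞 F / u`
  set r : ℕ := u.asIdeal.inertiaDeg ℤ with hr
  have hfr : ∀ i ∈ A, ∀ j ∈ A, ∃ k : ℕ, T j = T i ^ p ^ (r * k) := by
    intro i hi j hj
    rw [hA, Finset.mem_filter] at hi hj
    obtain ⟨n, hn⟩ := frob_conj (p := p) (ψ i.1) (ψ j.1) (hi.2.trans hj.2.symm)
    have h1 : (RingHom.ker w).inertiaDeg ℤ ∣ n := by
      apply dvd_of_frob w n
      intro x
      have h2 : w x = ψ i.1 (algebraMap (𝓞 F) (𝓞 K) x) := by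
        rw [← hψ.1 i.1]
        rfl
      have h3 : w x = ψ j.1 (algebraMap (𝓞 F) (𝓞 K) x) := by
        rw [← hψ.1 j.1]
        rfl
      rw [h2, ← hn, ← h3, h2]
    rw [hw] at h1
    obtain ⟨k, hk⟩ := h1
    refine ⟨k, ?_⟩
    rw [← hk]
    show -(ψ j.1 b') / ψ j.1 a' = (-(ψ i.1 b') / ψ i.1 a') ^ p ^ n
    rw [div_pow, (hpodd.pow).neg_pow, hn, hn]
  -- a member
  have hApos : 0 < A.card := by
    rcases Nat.eq_zero_or_pos A.card with h0 | h0
    · rw [h0] at hlt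
      omega
    · exact h0
  obtain ⟨i, hi⟩ := Finset.card_pos.1 hApos
  obtain ⟨g1, g2, g3, g4⟩ := fam_core_q h5 hS3 A hlt r hfr hi
  rw [hA, Finset.mem_filter] at hi
  have hker := hi.2
  have htow : v.asIdeal.inertiaDeg ℤ = r * v.asIdeal.inertiaDeg (𝓞 F) :=
    Ideal.inertiaDeg_tower u.asIdeal v.asIdeal
  refine ⟨?_, ?_, he, ?_⟩
  · have h6 := (prime_data (p := p) u.asIdeal u.isPrime hu).2.2.2.2.2
    rw [← h6, ← hr]
    obtain ⟨m, hm⟩ := Nat.not_even_iff_odd.1 g3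
    rw [hm, pow_succ, pow_mul, Nat.mul_mod, Nat.pow_mod, Nat.pow_mod p 2, g2]
    norm_num
  · apply g4
    rw [← htow]
    show (-(ψ i.1 b') / ψ i.1 a') ^ p ^ v.asIdeal.inertiaDeg ℤ = -(ψ i.1 b') / ψ i.1 a'
    rw [div_pow, (hpodd.pow).neg_pow, ← hker, pow_inertia, pow_inertia]
  · have hmem : a' ^ 2 + a' * b' + b' ^ 2 ∈ v.asIdeal := by
      have ha0 : ψ i.1 a' ≠ 0 := (hgd i.1 hker).1
      have h4 : (-(ψ i.1 b') / ψ i.1 a') ^ 2 - -(ψ i.1 b') / ψ i.1 a' + 1 = 0 := g1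
      rw [← hker, RingHom.mem_ker, map_add, map_add, map_mul, map_pow, map_pow]
      field_simp at h4
      linear_combination h4
    have h4 : v.valuation K ((a' ^ 2 + a' * b' + b' ^ 2 : 𝓞 K) : K) < 1 := by
      rw [HeightOneSpectrum.valuation_lt_one_iff_mem]
      exact hmem
    have h5 : v.valuation K ((a' : 𝓞 K) : K) = 1 := by
      refine le_antisymm (v.valuation_le_one a') ?_
      by_contra h6
      exact n1 ((HeightOneSpectrum.valuation_lt_one_iff_mem (K := K) v a').mp (not_le.mp h6))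
    have h6 : ((a' ^ 2 + a' * b' + b' ^ 2 : 𝓞 K) : K) = l ^ 2 * (a ^ 2 + a * b + b ^ 2) := by
      have h8 : ((a' ^ 2 + a' * b' + b' ^ 2 : 𝓞 K) : K)
          = (a' : K) ^ 2 + (a' : K) * (b' : K) + (b' : K) ^ 2 := by
        simp only [map_add, map_mul, map_pow]
      rw [h8, ea, eb]
      ring
    have h7 : v.valuation K (l ^ 2) * v.valuation K (a ^ 2) = 1 := by
      rw [← map_mul, ← mul_pow, ← ea, map_pow, h5, one_pow]
    rw [h6, map_mul, ← h7] at h4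
    exact lt_of_mul_lt_mul_left' h4

end H52AB
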